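import Pool.Agent.N276.SC.Fin
import Pool.Agent.N276.SC.Meas
import Pool.Agent.N276.SC.Gap
import Pool.Agent.N276.SC.Drift
import Pool.Agent.N276.SC.DriftC
import Pool.Agent.N276.SC.Tail
import Pool.Agent.N276.SC.Comm
import Pool.Agent.N276.SC.Fresh
import Pool.Agent.N276.SC.Mark
import Pool.Agent.N276.SC.Split2
import Pool.Agent.N276.SC.Sub
import Pool.Agent.N276.SC.Same
import Pool.Agent.N276.SC.Esc
import Pool.Agent.N276.SC.TailF
import Pool.Agent.N276.SC.Shift
import Pool.Agent.N276.SC.Osc
import Pool.Agent.N276.SC.Cont
import Pool.Agent.N276.SC.SpeedU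
import Pool.Agent.N276.SC.SpeedL
import Pool.Agent.N276.SC.EdgeT
import Pool.Agent.N276.SC.EnvT
import Pool.Agent.N276.SC.SkelD
import Pool.Agent.N276.SC.SkelS
import Pool.Agent.N276.SC.TimeT
import Pool.Agent.N276.SC.RingT
import Pool.Agent.N276.SC.NuT

/-!
# MP_fa7dd9_pr, Q1: the speed of the biased walk in slowly refreshing conductances

For every dimension, every uniformly elliptic law `q` of the conductances and every bias `lam > 0`
the speed in the dynamical conductances converges to the static speed when the refresh rate tends
to `0`. The definitions (graphical construction of the conductances and of the walk, `IsDynSpeed`,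
`IsStatSpeed`) are in `Pool.Agent.N276.SC.Def`; the lattice is `ℤ^(d+1)`.
-/

set_option autoImplicit false

open MeasureTheory ProbabilityTheory Filter Topology Set

namespace Pool.Agent.Results.MP_fa7dd9_pr.SlowRefreshSpeed

open Pool.Agent.N276.SC

/-- Let `q` be a probability measure on `[c, kap]`, `c > 0`, and `lam > 0`. If `v mu` is the speed
for the refresh rate `mu > 0` and `vst` the static speed, then `v mu → vst` as `mu → 0+`. -/
theorem result (d : ℕ) (c kap lam : ℝ) (q : Measure ℝ) [hq : IsProbabilityMeasure q] (hc : 0 < c)
    (hs : q (Icc c kap) = 1) (hlam : 0 < lam) (v : ℝ → ℝ) (vst : ℝ)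
    (hv : ∀ mu, 0 < mu → IsDynSpeed d lam kap q mu (v mu)) (hst : IsStatSpeed d lam kap q vst) :
    Tendsto v (𝓝[>] 0) (𝓝 vst) := by
  have hgap : StmGap := gap
  have hdrift : StmDrift := drift meas hgap
  have hdc : StmDriftC := driftC meas hdrift
  have htail : StmTail := tailM meas hdc
  have hcomm : StmComm := comm meas
  have hfresh : StmFresh := fresh meas hcomm
  have hmark : StmMark := mark meas
  have hsplit : StmSplit := splitT2 meas htail hfresh hmark
  have hsub : StmSub := subAdd meas hsplit
  have hesc : StmEsc := esc meas hdc hmark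
  have htf : StmTailF := tailF meas hdc
  have hshift : StmShift := shift meas
  have hosc : StmOsc := osc meas htail hsplit same hesc htf hshift
  have hcont : StmCont := cont meas hdc
  have hu : StmSpeedU := speedU meas htail hsub
  have hl : StmSpeedL := speedL meas hdc htail hsub
  have henv : StmEnv := envT edgeT
  exact fin meas htail hosc hcont hu hl (nuT meas) (skelD meas henv) (skelS meas) timeT ringT
    d c kap lam q hq hc hs hlam v vst hv hst

end Pool.Agent.Results.MP_fa7dd9_pr.SlowRefreshSpeed
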